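import Mathlib
import Pool.Agent.V11150.LionsSubgraph

set_option autoImplicit false

namespace Pool.Agent.Results.MP_fb7c1b_co.SpanningSubgraphHarder

open Pool.Agent.V11150.Lions

/-- Q1 of MP_fb7c1b_co is false: there are a finite connected graph `G`, a connected spanning
subgraph `H` of `G` and a number `k ≥ 1` such that `k` lions can clear `G` but not `H`. -/
theorem result : ∃ (V : Type) (_ : Finite V) (G H : SimpleGraph V) (k : ℕ), 1 ≤ k ∧
    G.Connected ∧ H.Connected ∧ H ≤ G ∧ Sweeps G k ∧ ¬ Sweeps H k :=
  ⟨Fin 8, inferInstance, bigG, smallH, 2, by norm_num, connected_bigG, connected_smallH, smallH_le,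
    sweeps_bigG, not_sweeps_smallH⟩

end Pool.Agent.Results.MP_fb7c1b_co.SpanningSubgraphHarder
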